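import Pool.Agent.Helper69.ISO.Sheet
import Pool.Agent.Helper79.PN.Lem

/-!
Project ISO (MP_7c9036_mp), row NSL: lines which contain no internal coordinate.
-/

set_option autoImplicit false

open scoped Classical

namespace Pool.Agent.Helper53.ISO

open Pool.Agent.Helper79.PN Pool.Agent.Helper69.ISO

theorem nse {P : Pen} {c : Lam} (h : P.n c = 1) (j : ZMod 5) : P.h c j ≠ (3 - 2 * g) / 2 := by
  intro h1
  have h2 := P.ns3 (c + e (j + 1) + e (j - 2) + e (j - 1) - e j) j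
    (by rw [P.n_sub, P.n_add, P.n_add, P.n_add]; omega)
  rw [P.h_sub, sub_self, cc0, (P.stp4 _ j).1, (P.stp3 _ j).1, (P.stp1 _ j).1] at h2
  exact h2 (by linarith)

theorem nsf {P : Pen} {z : Lam} (h : P.n z = 2) (j : ZMod 5) : P.h z j ≠ (3 * g - 5) / 2 := by
  intro h1
  have h2 := nsa (P := P) (K := z + e j - e (j + 1) - e (j - 1))
    (by rw [P.n_sub, P.n_sub, P.n_add]; omega) j
  rw [P.h_sub_add, (P.stp4 _ j).1, P.h_sub_add, (P.stp1 _ j).1, (P.stp _ j).1] at h2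
  exact h2 (by linarith)

theorem nsg {P : Pen} {u : Lam} (h : P.n u = 4) (j : ZMod 5) : P.h u j ≠ (8 - 5 * g) / 2 := by
  intro h1
  have h2 := nse (P := P) (c := u + e (j + 1) - e (j + 2) - e (j + 2) - e j - e j)
    (by rw [P.n_sub, P.n_sub, P.n_sub, P.n_sub, P.n_add]; omega) j
  rw [P.h_sub_add, (P.stp _ j).1, P.h_sub_add, (P.stp _ j).1, P.h_sub_add, (P.stp2 _ j).1,
    P.h_sub_add, (P.stp2 _ j).1, (P.stp1 _ j).1] at h2
  exact h2 (by linarith)

/-- NSL: lines which contain no internal coordinate. -/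
theorem st_NSL : ST_NSL :=
  ⟨fun _ _ j h => ⟨nsa h j, nse h j⟩, fun _ _ j h => ⟨nsc h j, nsf h j⟩, fun _ _ j h => nsg h j⟩

end Pool.Agent.Helper53.ISO
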