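import Pool.Agent.Helper69.ISO.Sheet
import Pool.Agent.Helper79.PN.Lem

/-!
Project ISO (MP_7c9036_mp), row O4: the operator `H + 3` is bounded below on the complement of its
kernel.
-/

set_option autoImplicit false

open scoped Classical

namespace Pool.Agent.Helper53.ISO

open Pool.Agent.Helper79.PN Pool.Agent.Helper69.ISO

theorem o4_ex (θ : ℂ) (φ : Vert θ → ℝ) (v : Vert θ) : ex θ φ v.1 = φ v := by
  unfold ex
  rw [dif_pos v.2]

theorem o4_exz (θ : ℂ) (φ : Vert θ → ℝ) (K : Lam) (hK : ¬ Acc θ K) : ex θ φ K = 0 := by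
  unfold ex
  rw [dif_neg hK]

theorem o4_sum (θ : ℂ) (G : Lam → ℝ) (hG : ∀ K, ¬ Acc θ K → G K = 0) :
    ((Summable fun v : Vert θ => G v.1) ↔ Summable G) ∧
      ∑' v : Vert θ, G v.1 = ∑' K, G K := by
  have hi : Function.Injective (fun v : Vert θ => v.1) := Subtype.val_injective
  constructor
  · exact hi.summable_iff (f := G) (by
      intro K hK
      exact hG K fun h => hK ⟨⟨K, h⟩, rfl⟩)
  · exact hi.tsum_eq (f := G) (by
      intro K hK
      rw [Function.mem_support] at hK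
      by_contra hcon
      exact hK (hG K fun h => hcon ⟨⟨K, h⟩, rfl⟩))

theorem o4_norm (θ : ℂ) (ψ : Hil θ) :
    (Summable fun v : Vert θ => ((ψ : Vert θ → ℂ) v).re ^ 2) ∧
    (Summable fun v : Vert θ => ((ψ : Vert θ → ℂ) v).im ^ 2) ∧
    ‖ψ‖ ^ 2 = ∑' v : Vert θ, ((ψ : Vert θ → ℂ) v).re ^ 2 +
      ∑' v : Vert θ, ((ψ : Vert θ → ℂ) v).im ^ 2 := by
  have h2 : (0 : ℝ) < (2 : ENNReal).toReal := by norm_num
  have h0 := lp.norm_rpow_eq_tsum h2 ψ
  have h1 : Summable fun v : Vert θ => ‖(ψ : Vert θ → ℂ) v‖ ^ (2 : ENNReal).toReal :=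
    (lp.memℓp ψ).summable h2
  have h3 : (2 : ENNReal).toReal = ((2 : ℕ) : ℝ) := by norm_num
  rw [h3] at h0 h1
  simp only [Real.rpow_natCast] at h0 h1
  have h4 : ∀ v : Vert θ, ‖(ψ : Vert θ → ℂ) v‖ ^ 2 =
      ((ψ : Vert θ → ℂ) v).re ^ 2 + ((ψ : Vert θ → ℂ) v).im ^ 2 := by
    intro v
    rw [Complex.sq_norm, Complex.normSq_apply]
    ring
  simp only [h4] at h0 h1
  have hr : Summable fun v : Vert θ => ((ψ : Vert θ → ℂ) v).re ^ 2 :=
    Summable.of_nonneg_of_le (fun v => sq_nonneg _)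
      (fun v => le_add_of_nonneg_right (sq_nonneg _)) h1
  have hm : Summable fun v : Vert θ => ((ψ : Vert θ → ℂ) v).im ^ 2 :=
    Summable.of_nonneg_of_le (fun v => sq_nonneg _)
      (fun v => le_add_of_nonneg_left (sq_nonneg _)) h1
  refine ⟨hr, hm, ?_⟩
  rw [h0, Summable.tsum_add hr hm]

/-- real square summable functions define vectors of the Hilbert space -/
theorem o4_vec (θ : ℂ) (d : Lam → ℝ) (hd : Sq d) :
    ∃ y : Hil θ, ∀ v : Vert θ, (y : Vert θ → ℂ) v = (d v.1 : ℂ) := by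
  have h1 : Memℓp (fun v : Vert θ => (d v.1 : ℂ)) 2 := by
    refine memℓp_gen ?_
    have h3 : (2 : ENNReal).toReal = ((2 : ℕ) : ℝ) := by norm_num
    rw [h3]
    simp only [Real.rpow_natCast, Complex.norm_real, Real.norm_eq_abs, sq_abs]
    exact hd.comp_injective (i := fun v : Vert θ => v.1) Subtype.val_injective
  exact ⟨⟨_, h1⟩, fun v => rfl⟩

/-- the values of the operator `H + 3` -/
theorem o4_val {θ : ℂ} {H : Hil θ →L[ℂ] Hil θ} (hH : IsLap θ H) (ψ : Hil θ) (v : Vert θ) :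
    ((H ψ + (3 : ℂ) • ψ : Hil θ) : Vert θ → ℂ) v =
      (∑ w ∈ nbV θ v, (ψ : Vert θ → ℂ) w - ((nbV θ v).card : ℂ) * (ψ : Vert θ → ℂ) v) +
        3 * (ψ : Vert θ → ℂ) v := by
  rw [lp.coeFn_add, Pi.add_apply, hH ψ v, lp.coeFn_smul, Pi.smul_apply, smul_eq_mul,
    Finset.sum_sub_distrib, Finset.sum_const, nsmul_eq_mul]

/-- the function `uu P 0` on vertices -/
theorem o4_uu (h3 : ST_NBX) {θ : ℂ} {P : Pen} (hV : ∀ K, InV P K ↔ Acc θ K) (φ : Vert θ → ℝ)
    (v : Vert θ) : uu P 0 (ex θ φ) v.1 =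
      -((∑ w ∈ nbV θ v, φ w - ((nbV θ v).card : ℝ) * φ v) + 3 * φ v) := by
  have hind : ∀ K, ind (InV P K) = ind (Acc θ K) := by
    intro K
    by_cases h : Acc θ K
    · rw [ind_true h, ind_true ((hV K).2 h)]
    · rw [ind_false h, ind_false (fun h' => h ((hV K).1 h'))]
  have hdg : ((nbV θ v).card : ℝ) = dg P v.1 := by
    rw [(h3 θ v).2.1]
    unfold dg
    congr 1
    funext K
    exact (hind K).symm
  unfold uu
  rw [ind_true ((hV v.1).2 v.2), o4_ex, ← (h3 θ v).1 φ, ← hdg]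
  ring

theorem o4_uuz {θ : ℂ} {P : Pen} (hV : ∀ K, InV P K ↔ Acc θ K) (f : Lam → ℝ) (K : Lam)
    (hK : ¬ Acc θ K) : uu P 0 f K = 0 := by
  unfold uu
  rw [ind_false (fun h => hK ((hV K).1 h)), zero_mul]

/-- O4: the operator `H + 3` is bounded below on the complement of its kernel. -/
theorem st_O4 (h1 : ST_PEN) (h3 : ST_NBX) (hO : ST_O3) : ST_O4 := by
  intro θ H hθ hH
  obtain ⟨C, hC, hO⟩ := hO
  obtain ⟨P, -, -, hV⟩ := h1 θ hθ
  have hsC : 0 < √C := Real.sqrt_pos.2 hC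
  refine ⟨(√C)⁻¹, inv_pos.2 hsC, fun x hx => ?_⟩
  -- orthogonality
  have hort : ∀ d : Lam → ℝ, Sq d → Sup P d → (∀ K, uu P 0 d K = 0) →
      ∑' v : Vert θ, ((x : Vert θ → ℂ) v).re * d v.1 = 0 ∧
      ∑' v : Vert θ, ((x : Vert θ → ℂ) v).im * d v.1 = 0 := by
    intro d hd hdS hdu
    obtain ⟨y, hy⟩ := o4_vec θ d hd
    have hd' : ex θ (fun v => d v.1) = d := by
      funext K
      by_cases hK : Acc θ K
      · exact o4_ex θ (fun v => d v.1) ⟨K, hK⟩
      · rw [o4_exz θ _ K hK, hdS K fun h => hK ((hV K).1 h)]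
    have hyH : H y = (-3 : ℂ) • y := by
      have h5 : H y + (3 : ℂ) • y = 0 := by
        refine lp.ext (funext fun v => ?_)
        rw [o4_val hH y v]
        have h6 := o4_uu h3 hV (fun v => d v.1) v
        rw [hd', hdu v.1] at h6
        have h7 : ((∑ w ∈ nbV θ v, d w.1 - ((nbV θ v).card : ℝ) * d v.1) + 3 * d v.1 : ℝ) = 0 := by
          linarith
        simp only [hy]
        have h8 := congrArg (fun r : ℝ => (r : ℂ)) h7
        push_cast at h8
        exact h8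
      rw [neg_smul]
      exact eq_neg_of_add_eq_zero_left h5
    have h6 := hx y hyH
    have h7 : HasSum (fun v : Vert θ => inner ℂ ((y : Vert θ → ℂ) v) ((x : Vert θ → ℂ) v))
        (0 : ℂ) := by
      rw [← h6]
      exact lp.hasSum_inner y x
    have h8 : ∀ v : Vert θ, inner ℂ ((y : Vert θ → ℂ) v) ((x : Vert θ → ℂ) v) =
        (x : Vert θ → ℂ) v * (d v.1 : ℂ) := by
      intro v
      rw [hy, RCLike.inner_apply]
      congr 1
      exact Complex.conj_ofReal _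
    simp only [h8] at h7
    have h9 := Complex.hasSum_re h7
    have h10 := Complex.hasSum_im h7
    constructor
    · rw [← Complex.zero_re, ← h9.tsum_eq]
      refine tsum_congr fun v => ?_
      simp [Complex.mul_re]
    · rw [← Complex.zero_im, ← h10.tsum_eq]
      refine tsum_congr fun v => ?_
      simp [Complex.mul_im]
  -- the real inequality
  have hin : ∀ φ : Vert θ → ℝ, (Summable fun v => φ v ^ 2) →
      (∀ d : Lam → ℝ, Sq d → Sup P d → (∀ K, uu P 0 d K = 0) → ∑' v : Vert θ, φ v * d v.1 = 0) →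
      ∑' v, φ v ^ 2 ≤ C * ∑' v : Vert θ, (uu P 0 (ex θ φ) v.1) ^ 2 := by
    intro φ hφ hφo
    have a1 := o4_sum θ (fun K => ex θ φ K ^ 2) (fun K hK => by
      simp only [o4_exz θ φ K hK]
      norm_num)
    have a2 := o4_sum θ (fun K => uu P 0 (ex θ φ) K ^ 2) (fun K hK => by
      simp only [o4_uuz hV (ex θ φ) K hK]
      norm_num)
    simp only [o4_ex] at a1
    rw [a1.2, a2.2]
    refine hO P (ex θ φ) (a1.1.1 hφ) (fun K hK => o4_exz θ φ K fun h => hK ((hV K).2 h)) ?_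
    intro d hd hdS hdu
    have a3 := o4_sum θ (fun K => ex θ φ K * d K) (fun K hK => by
      simp only [o4_exz θ φ K hK]
      norm_num)
    simp only [o4_ex] at a3
    rw [← a3.2]
    exact hφo d hd hdS hdu
  have hbd : ‖x‖ ^ 2 ≤ C * ‖H x + (3 : ℂ) • x‖ ^ 2 := by
    obtain ⟨r1, m1, n1⟩ := o4_norm θ x
    obtain ⟨r2, m2, n2⟩ := o4_norm θ (H x + (3 : ℂ) • x)
    have b1 := hin (fun v => ((x : Vert θ → ℂ) v).re) r1 fun d a b c => (hort d a b c).1
    have b2 := hin (fun v => ((x : Vert θ → ℂ) v).im) m1 fun d a b c => (hort d a b c).2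
    have c1 : ∀ v : Vert θ, uu P 0 (ex θ (fun v => ((x : Vert θ → ℂ) v).re)) v.1 ^ 2 =
        (((H x + (3 : ℂ) • x : Hil θ) : Vert θ → ℂ) v).re ^ 2 := by
      intro v
      rw [o4_uu h3 hV, o4_val hH, neg_sq]
      congr 1
      simp [Complex.add_re, Complex.sub_re, Complex.mul_re, Complex.re_sum]
    have c2 : ∀ v : Vert θ, uu P 0 (ex θ (fun v => ((x : Vert θ → ℂ) v).im)) v.1 ^ 2 =
        (((H x + (3 : ℂ) • x : Hil θ) : Vert θ → ℂ) v).im ^ 2 := by
      intro v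
      rw [o4_uu h3 hV, o4_val hH, neg_sq]
      congr 1
      simp [Complex.add_im, Complex.sub_im, Complex.mul_im, Complex.im_sum]
    simp only [c1] at b1
    simp only [c2] at b2
    rw [n1, n2, mul_add]
    exact add_le_add b1 b2
  rw [inv_mul_le_iff₀ hsC]
  have h7 : √C ^ 2 = C := Real.sq_sqrt hC.le
  rw [← h7, ← mul_pow] at hbd
  exact (pow_le_pow_iff_left₀ (norm_nonneg _) (by positivity) (by norm_num)).1 hbd

end Pool.Agent.Helper53.ISO
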