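import Pool.Agent.Helper69.ISO.Sheet
import Pool.Agent.Helper79.PN.Lem

/-!
Project ISO (MP_7c9036_mp), row O7: the eigenspace of `-3` has infinite dimension.
-/

set_option autoImplicit false

open scoped Classical

namespace Pool.Agent.Helper53.ISO

open Pool.Agent.Helper79.PN Pool.Agent.Helper69.ISO

theorem o7_zeta (n : ℕ) : ‖zeta ^ n‖ = 1 := by
  rw [norm_pow]
  have : ‖zeta‖ = 1 := by
    unfold zeta
    rw [show (2 * Real.pi * Complex.I / 5 : ℂ) = ((2 * Real.pi / 5 : ℝ) : ℂ) * Complex.I by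
      push_cast; ring]
    exact Complex.norm_exp_ofReal_mul_I _
  rw [this, one_pow]

theorem o7_hh (θ : ℂ) (c : Lam) (j : ZMod 5) : |hh θ c j| ≤ ‖yy θ c‖ := by
  unfold hh
  refine (Complex.abs_re_le_norm _).trans ?_
  rw [norm_mul, RCLike.norm_conj, o7_zeta, mul_one]

theorem o7_exf (θ : ℂ) (P : Pen) (hP : ∀ K, InV P K ↔ Acc θ K) (f : Lam → ℝ) (hf : Sup P f) :
    ex θ (fun v => f v.1) = f := by
  funext K
  unfold ex
  split_ifs with h
  · rfl
  · exact (hf K (fun h' => h ((hP K).1 h'))).symm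

/-- the eigenfunction of the ring around `c` -/
noncomputable def fc (c K : Lam) : ℝ :=
  ∑ k : ZMod 5, (ind (K = c + e k - e (k + 1)) - ind (K = c + e k - e (k - 1)))

/-- the displacements of its support -/
noncomputable def SS : Finset Lam :=
  (Finset.univ : Finset (ZMod 5)).image (fun k => e k - e (k + 1)) ∪
    (Finset.univ : Finset (ZMod 5)).image (fun k => e k - e (k - 1))

theorem fc_supp {c K : Lam} (h : fc c K ≠ 0) : K - c ∈ SS := by
  by_contra hK
  apply h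
  simp only [SS, Finset.mem_union, Finset.mem_image, Finset.mem_univ, true_and, not_or,
    not_exists] at hK
  unfold fc
  apply Finset.sum_eq_zero
  intro k _
  rw [ind_false (fun h' => hK.1 k (by rw [h']; abel)),
    ind_false (fun h' => hK.2 k (by rw [h']; abel)), sub_zero]

theorem fc_fin (c : Lam) : (Function.support (fc c)).Finite := by
  refine ((SS.image fun x => c + x).finite_toSet).subset fun K hK => ?_
  rw [Finset.mem_coe, Finset.mem_image]
  exact ⟨K - c, fc_supp hK, by abel⟩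

theorem o7_one (hPEN : ST_PEN) (hNBX : ST_NBX) (hEGA : ST_EGA) {θ : ℂ} {H : Hil θ →L[ℂ] Hil θ}
    (hθ : NonSing θ) (hH : IsLap θ H) {c : Lam} (hc2 : lvl c = 2) (hc : ‖yy θ c‖ < 1 / 20) :
    ∃ ψ : Hil θ, (∀ v : Vert θ, (ψ : Vert θ → ℂ) v = ((fc c v.1 : ℝ) : ℂ)) ∧
      H ψ = (-3 : ℂ) • ψ ∧ ∃ v : Vert θ, fc c v.1 ≠ 0 := by
  obtain ⟨P, hn, hh', hV⟩ := hPEN θ hθ
  obtain ⟨f1, f2, f3, f4⟩ := hEGA P c (by rw [hn, hc2]) (fun j => by
    rw [hh']
    have := o7_hh θ c j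
    linarith) (fc c) (fun K => rfl)
  have hmem : Memℓp (fun v : Vert θ => ((fc c v.1 : ℝ) : ℂ)) 2 := by
    apply memℓp_gen
    apply summable_of_hasFiniteSupport
    refine ((fc_fin c).preimage (Subtype.val_injective.injOn)).subset ?_
    intro v hv
    simp only [Set.mem_preimage, Function.mem_support] at hv ⊢
    intro h0
    apply hv
    rw [h0]
    simp
  let ψ : Hil θ := ⟨fun v : Vert θ => ((fc c v.1 : ℝ) : ℂ), hmem⟩
  have hψ : ∀ v : Vert θ, (ψ : Vert θ → ℂ) v = ((fc c v.1 : ℝ) : ℂ) := fun v => rfl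
  refine ⟨ψ, hψ, ?_, ?_⟩
  · apply lp.ext
    funext v
    rw [hH ψ v]
    have hx := o7_exf θ P hV (fc c) f1
    obtain ⟨n1, n2, -, -⟩ := hNBX θ v
    have h1 := n1 (fun w => fc c w.1)
    rw [hx, f3 v.1 ((hV v.1).2 v.2)] at h1
    have h2 : ((nbV θ v).card : ℝ) = dg P v.1 := by
      rw [n2]
      unfold dg
      congr 1
      funext K
      rw [show (InV P K) = Acc θ K from propext (hV K)]
    have h3 : ∑ w ∈ nbV θ v, ((ψ : Vert θ → ℂ) w - (ψ : Vert θ → ℂ) v) =
        ((∑ w ∈ nbV θ v, fc c w.1 - ((nbV θ v).card : ℝ) * fc c v.1 : ℝ) : ℂ) := by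
      rw [Finset.sum_sub_distrib, Finset.sum_const, nsmul_eq_mul]
      push_cast
      rfl
    rw [h3, h1, h2]
    simp only [lp.coeFn_smul, Pi.smul_apply, smul_eq_mul, hψ]
    rcases eq_or_ne (fc c v.1) 0 with h0 | h0
    · rw [h0]
      simp
    · rw [f2 v.1 h0]
      push_cast
      ring
  · obtain ⟨K, hK⟩ := f4
    have hKV : InV P K := by
      by_contra h
      exact hK (f1 K h)
    exact ⟨⟨K, (hV K).1 hKV⟩, hK⟩

/-- the admissible centres -/
def Ad (θ : ℂ) : Set Lam := {c | lvl c = 2 ∧ ‖yy θ c‖ < 1 / 20}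

theorem ad_inf (hDEN : ST_DEN) (θ : ℂ) : (Ad θ).Infinite := by
  intro hfin
  have hF : (yy θ '' Ad θ).Finite := hfin.image _
  have hB : (Metric.ball (0 : ℂ) (1 / 40)).Infinite :=
    infinite_of_mem_nhds 0 (Metric.ball_mem_nhds _ (by norm_num))
  obtain ⟨y, hyB, hyF⟩ := (hB.sdiff hF).nonempty
  have hyo : (yy θ '' Ad θ)ᶜ ∈ nhds y := hF.isClosed.isOpen_compl.mem_nhds hyF
  obtain ⟨δ, hδ, hball⟩ := Metric.mem_nhds_iff.1 hyo
  obtain ⟨K, hK2, hK⟩ := hDEN θ y 2 (min δ (1 / 40)) (lt_min hδ (by norm_num))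
  have hyn : ‖y‖ < 1 / 40 := by simpa using hyB
  have hKA : K ∈ Ad θ := by
    refine ⟨hK2, ?_⟩
    have h1 : ‖yy θ K‖ ≤ ‖yy θ K - y‖ + ‖y‖ := by
      simpa using norm_add_le (yy θ K - y) y
    have h2 := lt_of_lt_of_le hK (min_le_right _ _)
    linarith
  have h3 : yy θ K ∈ Metric.ball y δ := by
    rw [Metric.mem_ball, dist_eq_norm]
    exact lt_of_lt_of_le hK (min_le_left _ _)
  exact hball h3 ⟨K, hKA, rfl⟩

theorem sep_set {A : Set Lam} (hA : A.Infinite) (D : Finset Lam) (n : ℕ) :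
    ∃ s : Finset Lam, s.card = n ∧ (∀ c ∈ s, c ∈ A) ∧
      ∀ a ∈ s, ∀ b ∈ s, a ≠ b → a - b ∉ D := by
  induction n with
  | zero => exact ⟨∅, rfl, by simp, by simp⟩
  | succ n ih =>
    obtain ⟨s, hs, hsA, hsD⟩ := ih
    obtain ⟨c, hcA, hc⟩ := hA.exists_notMem_finset
      (s ∪ s.biUnion fun a => (D.image fun d => a + d) ∪ D.image fun d => a - d)
    rw [Finset.mem_union, not_or] at hc
    obtain ⟨hc1, hc2⟩ := hc
    simp only [Finset.mem_biUnion, Finset.mem_union, Finset.mem_image, not_exists, not_and,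
      not_or] at hc2
    refine ⟨insert c s, ?_, ?_, ?_⟩
    · rw [Finset.card_insert_of_notMem hc1, hs]
    · intro a ha
      rcases Finset.mem_insert.1 ha with h | h
      · rw [h]; exact hcA
      · exact hsA a h
    · intro a ha b hb hab hD
      rcases Finset.mem_insert.1 ha with h | h <;> rcases Finset.mem_insert.1 hb with h' | h'
      · exact hab (h.trans h'.symm)
      · subst h
        exact (hc2 b h').1 (a - b) hD (by abel)
      · subst h'
        exact (hc2 a h).2 (a - b) hD (by abel)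
      · exact hsD a h b h' hab hD

/-- O7: the eigenspace of `-3` has infinite dimension. -/
theorem st_O7 (hPEN : ST_PEN) (hNBX : ST_NBX) (hEGA : ST_EGA) (hDEN : ST_DEN) : ST_O7 := by
  intro θ H hθ hH n
  obtain ⟨s, hs, hsA, hsD⟩ := sep_set (ad_inf hDEN θ)
    (Finset.image₂ (fun a b : Lam => a - b) SS SS) n
  let q := s.equivFinOfCardEq hs
  have key : ∀ i : Fin n, ∃ ψ : Hil θ,
      (∀ v : Vert θ, (ψ : Vert θ → ℂ) v = ((fc (q.symm i).1 v.1 : ℝ) : ℂ)) ∧
      H ψ = (-3 : ℂ) • ψ ∧ ∃ v : Vert θ, fc (q.symm i).1 v.1 ≠ 0 := fun i =>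
    o7_one hPEN hNBX hEGA hθ hH (hsA _ (q.symm i).2).1 (hsA _ (q.symm i).2).2
  choose ψ hψ hψH v hv using key
  refine ⟨ψ, ?_, hψH⟩
  rw [linearIndependent_iff']
  intro t b hb i hi
  have h1 : ((∑ j ∈ t, b j • ψ j : Hil θ) : Vert θ → ℂ) (v i) =
      ∑ j ∈ t, b j * (ψ j : Vert θ → ℂ) (v i) := by
    rw [lp.coeFn_sum, Finset.sum_apply]
    rfl
  rw [hb, Finset.sum_eq_single i] at h1
  · have h2 : (ψ i : Vert θ → ℂ) (v i) ≠ 0 := by
      rw [hψ]
      exact Complex.ofReal_ne_zero.2 (hv i)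
    have h3 : b i * (ψ i : Vert θ → ℂ) (v i) = 0 := h1.symm
    exact (mul_eq_zero.1 h3).resolve_right h2
  · intro j _ hji
    have h4 : fc (q.symm j).1 (v i).1 = 0 := by
      by_contra hne
      have h5 := fc_supp hne
      have h6 := fc_supp (hv i)
      refine hsD (q.symm i).1 (q.symm i).2 (q.symm j).1 (q.symm j).2 ?_ ?_
      · intro h7
        exact hji (q.symm.injective (Subtype.ext h7.symm))
      · rw [Finset.mem_image₂]
        exact ⟨_, h5, _, h6, by abel⟩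
    rw [hψ, h4]
    simp
  · intro h
    exact absurd hi h

end Pool.Agent.Helper53.ISO
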