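import Pool.Agent.Helper53.ISO.O7
import Pool.Agent.Helper14.PN.BEL

/-!
Project ISO (MP_7c9036_mp), row O8: there is spectrum above `-3`.
-/

set_option autoImplicit false

open scoped Classical

namespace Pool.Agent.Helper53.ISO

open Pool.Agent.Helper79.PN Pool.Agent.Helper69.ISO

/-- a vertex of degree 3 -/
theorem o8_vert (hPEN : ST_PEN) (hNBX : ST_NBX) (hEGA : ST_EGA) (hDEN : ST_DEN) {θ : ℂ}
    (hθ : NonSing θ) : ∃ v : Vert θ, (nbV θ v).card = 3 := by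
  obtain ⟨c, hc2, hc⟩ := hDEN θ 0 2 (1 / 20) (by norm_num)
  rw [sub_zero] at hc
  obtain ⟨P, hn, hh', hV⟩ := hPEN θ hθ
  obtain ⟨f1, f2, -, K, hK⟩ := hEGA P c (by rw [hn, hc2]) (fun j => by
    rw [hh']
    have := o7_hh θ c j
    linarith) (fc c) (fun K => rfl)
  have hKV : InV P K := by
    by_contra h
    exact hK (f1 K h)
  refine ⟨⟨K, (hV K).1 hKV⟩, ?_⟩
  have h2 : ((nbV θ ⟨K, (hV K).1 hKV⟩).card : ℝ) = dg P K := by
    rw [(hNBX θ ⟨K, (hV K).1 hKV⟩).2.1]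
    unfold dg
    congr 1
    funext K'
    rw [show (InV P K') = Acc θ K' from propext (hV K')]
  rw [f2 K hK] at h2
  exact_mod_cast h2

/-- a vector which shows that a symmetric operator with `⟪x, T x⟫ = 0` and `T x ≠ 0` is not
negative -/
theorem o8_pos {E : Type} [NormedAddCommGroup E] [InnerProductSpace ℂ E]
    [CompleteSpace E] (T : E →L[ℂ] E) (hT : IsSelfAdjoint T) (x : E)
    (h0 : (inner ℂ x (T x) : ℂ) = 0) (hx : T x ≠ 0) :
    ∃ y : E, 0 < (inner ℂ y (T y) : ℂ).re := by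
  have hsym : ∀ a b : E, (inner ℂ a (T b) : ℂ) = inner ℂ (T a) b := by
    intro a b
    exact (ContinuousLinearMap.isSelfAdjoint_iff_isSymmetric.1 hT a b).symm
  set z := T x with hz
  have hzn : 0 < ‖z‖ := norm_pos_iff.2 hx
  set ε : ℝ := 1 / (‖T‖ + 1) with hε
  have hT0 : 0 ≤ ‖T‖ := norm_nonneg T
  have hε0 : 0 < ε := by positivity
  refine ⟨x + (ε : ℂ) • z, ?_⟩
  have h1 : (inner ℂ (x + (ε : ℂ) • z) (T (x + (ε : ℂ) • z)) : ℂ) =
      (2 * ε : ℂ) * inner ℂ z z + (ε : ℂ) ^ 2 * inner ℂ z (T z) := by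
    rw [map_add, map_smul, inner_add_left, inner_add_right, inner_add_right, h0,
      inner_smul_left, inner_smul_left, inner_smul_right, inner_smul_right, hsym x z, ← hz,
      Complex.conj_ofReal]
    ring
  rw [h1]
  have h2 : (inner ℂ z z : ℂ) = ((‖z‖ ^ 2 : ℝ) : ℂ) := by
    rw [inner_self_eq_norm_sq_to_K]
    push_cast
    rfl
  have h3 : |(inner ℂ z (T z) : ℂ).re| ≤ ‖T‖ * ‖z‖ ^ 2 := by
    refine (Complex.abs_re_le_norm _).trans ((norm_inner_le_norm _ _).trans ?_)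
    have h4 := T.le_opNorm z
    nlinarith
  have h5 : ((2 * ε : ℂ) * inner ℂ z z + (ε : ℂ) ^ 2 * inner ℂ z (T z)).re =
      2 * ε * ‖z‖ ^ 2 + ε ^ 2 * (inner ℂ z (T z) : ℂ).re := by
    rw [h2, Complex.add_re]
    congr 1
    · rw [show (2 * ε : ℂ) = ((2 * ε : ℝ) : ℂ) by push_cast; rfl, ← Complex.ofReal_mul,
        Complex.ofReal_re]
    · rw [← Complex.ofReal_pow, Complex.re_ofReal_mul]
  rw [h5]
  have h6 := (abs_le.1 h3).1
  have h7 : ε * ‖T‖ < 1 := by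
    rw [hε, one_div, inv_mul_lt_iff₀ (by positivity)]
    linarith
  have h8 : 0 < ‖z‖ ^ 2 := by positivity
  have h9 : ε ^ 2 * (-(‖T‖ * ‖z‖ ^ 2)) ≤ ε ^ 2 * (inner ℂ z (T z) : ℂ).re :=
    mul_le_mul_of_nonneg_left h6 (by positivity)
  have h10 : ε ^ 2 * (-(‖T‖ * ‖z‖ ^ 2)) = -((ε * ‖T‖) * (ε * ‖z‖ ^ 2)) := by ring
  have h11 : (ε * ‖T‖) * (ε * ‖z‖ ^ 2) ≤ 1 * (ε * ‖z‖ ^ 2) :=
    mul_le_mul_of_nonneg_right h7.le (by positivity)
  have h12 : 0 < ε * ‖z‖ ^ 2 := by positivity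
  linarith

/-- spectrum above `c` -/
theorem o8_spec {E : Type} [NormedAddCommGroup E] [InnerProductSpace ℂ E] [CompleteSpace E]
    (H : E →L[ℂ] E) (hH : IsSelfAdjoint H) (c : ℝ) (y : E)
    (hy : 0 < (inner ℂ y (H y - (c : ℂ) • y) : ℂ).re) :
    ∃ t : ℝ, c < t ∧ (t : ℂ) ∈ spectrum ℂ H := by
  by_contra hcon
  push Not at hcon
  have h1 : H ≤ algebraMap ℝ (E →L[ℂ] E) c := by
    rw [le_algebraMap_iff_spectrum_le (ha := hH)]
    intro r hr
    by_contra hlt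
    push Not at hlt
    refine hcon r hlt ?_
    have := (spectrum.algebraMap_mem_iff (R := ℝ) (S := ℂ) (a := H) (r := r)).2 hr
    simpa using this
  rw [ContinuousLinearMap.le_def] at h1
  have h2 := h1.re_inner_nonneg_right y
  rw [sub_apply, inner_sub_right, Algebra.algebraMap_eq_smul_one,
    smul_apply, one_apply_eq_self, inner_smul_right_eq_smul] at h2
  rw [inner_sub_right, inner_smul_right] at hy
  have h3 : (RCLike.re (c • (inner ℂ y y : ℂ) - inner ℂ y (H y)) : ℝ) =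
      -((inner ℂ y (H y) - (c : ℂ) * inner ℂ y y : ℂ).re) := by
    simp
  rw [h3] at h2
  linarith

/-- O8: there is spectrum above `-3`. -/
theorem st_O8 (hPEN : ST_PEN) (hNBX : ST_NBX) (hOPX : ST_OPX) (hEGA : ST_EGA) (hDEN : ST_DEN) :
    ∀ (θ : ℂ) (H : Hil θ →L[ℂ] Hil θ), NonSing θ → IsLap θ H →
      ∃ E : ℝ, -3 < E ∧ (E : ℂ) ∈ spectrum ℂ H := by
  intro θ H hθ hH
  obtain ⟨H0, -, hsa0, huniq⟩ := hOPX θ
  have hsa : IsSelfAdjoint H := by rw [huniq H hH]; exact hsa0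
  obtain ⟨v, hv⟩ := o8_vert hPEN hNBX hEGA hDEN hθ
  obtain ⟨x, hx, hxv, hxw, hxi⟩ := Pool.Agent.Helper14.PN.bel_single θ v
  obtain ⟨-, -, hvv, hsymm⟩ := hNBX θ v
  obtain ⟨w, hw⟩ : (nbV θ v).Nonempty := by
    rw [← Finset.card_pos, hv]
    norm_num
  have hwv : w ≠ v := by
    intro he
    rw [he] at hw
    exact hvv hw
  set T : Hil θ →L[ℂ] Hil θ := H - algebraMap ℂ (Hil θ →L[ℂ] Hil θ) ((-3 : ℝ) : ℂ) with hTdef
  have hTx : ∀ y : Hil θ, T y = H y + (3 : ℂ) • y := by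
    intro y
    rw [hTdef, sub_apply, Algebra.algebraMap_eq_smul_one]
    have e1 : ((((-3 : ℝ) : ℂ)) • (1 : Hil θ →L[ℂ] Hil θ)) y = (((-3 : ℝ) : ℂ)) • y := rfl
    rw [e1, sub_eq_add_neg, ← neg_smul]
    norm_num
  have hTsa : IsSelfAdjoint T := by
    refine hsa.sub (IsSelfAdjoint.algebraMap _ ?_)
    exact Complex.conj_ofReal _
  have h0 : (inner ℂ x (T x) : ℂ) = 0 := by
    rw [hxi, hTx, lp.coeFn_add, Pi.add_apply, lp.coeFn_smul, Pi.smul_apply, smul_eq_mul, hxv,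
      hH x v]
    have h2 : ∀ w ∈ nbV θ v, (x : Vert θ → ℂ) w - (x : Vert θ → ℂ) v = -1 := by
      intro w hw
      have hne : w ≠ v := by
        intro he
        rw [he] at hw
        exact hvv hw
      rw [hxw w hne, hxv]
      ring
    rw [Finset.sum_congr rfl h2, Finset.sum_const, hv]
    norm_num
  have hne : T x ≠ 0 := by
    intro h
    have h1 : ((T x : Hil θ) : Vert θ → ℂ) w = 0 := by
      rw [h]
      rfl
    rw [hTx, lp.coeFn_add, Pi.add_apply, lp.coeFn_smul, Pi.smul_apply, smul_eq_mul,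
      hxw w hwv, mul_zero, add_zero, hH x w] at h1
    have hvw : v ∈ nbV θ w := (hsymm w).1 hw
    rw [Finset.sum_eq_single v] at h1
    · rw [hxv, hxw w hwv] at h1
      norm_num at h1
    · intro u _ hu
      rw [hxw u hu, hxw w hwv, sub_zero]
    · intro h2
      exact absurd hvw h2
  obtain ⟨y, hy⟩ := o8_pos T hTsa x h0 hne
  refine o8_spec H hsa (-3) y ?_
  have h3 : H y - ((-3 : ℝ) : ℂ) • y = T y := by
    rw [hTx, sub_eq_add_neg, ← neg_smul]
    norm_num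
  rw [h3]
  exact hy

end Pool.Agent.Helper53.ISO
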